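import Pool.Agent.PDZ.Defs

/-!
# PDZ: the tube with mixed extra units (statement by helper20)
-/

set_option autoImplicit false

namespace Pool.Agent.PDZ

open Multiset

/-- TUB (helper20): the path cube with `t` of the six classes of faces filled by 3s; the extra units
`r_j` on the path edges, `r_j = v_j - 6 - t - r_(j-1)` (the degrees sorted ascending), `U = ∑ r_j`,
`O` the number of the odd `r_j`; `a` pairs of 3s, `b` 2s, `c` 4s, `d` pairs of leaves. -/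
def TubStmt : Prop := ∀ (t Δ : ℕ) (l : Multiset ℕ), 1 ≤ t → t ≤ 6 →
  (∀ v ∈ l, 6 + t ≤ v ∧ v ≤ Δ) →
  ∃ U O F G : ℕ, (l.map fun v => v - (6 + t)).sum ≤ 2 * U + 3 * Δ ∧
    2 * U ≤ (l.map fun v => v - (6 + t)).sum + Δ ∧ O ≤ U ∧ U % 2 = O % 2 ∧
    ((∀ v ∈ l, v % 2 = t % 2) → O = 0) ∧ ((∀ v ∈ l, v % 2 ≠ t % 2) → 2 * O ≤ card l + 1) ∧
    3 * F ≤ t * card l + 12 ∧ G ≤ 200 * Δ ∧
    ∀ a b c d : ℕ, 2 * a + (b + c + d) = U → O ≤ b + c + d → (t < 6 → b + c + d = 0) →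
      Pz (l + replicate (F + G + 2 * a) 3 + replicate b 2 + replicate c 4 +
        replicate (2 * d) 1)

end Pool.Agent.PDZ
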