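import Pool.Agent.PDZ.Stmts

/-!
# PDZ, row CHO (helper46): the choice of the parts
-/

set_option autoImplicit false

namespace Pool.Agent.PDZ.H46

open Multiset Pool.Agent.PDZ

theorem sm_add (k : ℕ) (P Q : Multiset ℕ) : sm k (P + Q) = sm k P + sm k Q := by
  simp [sm]

theorem sm_zero (k : ℕ) : sm k 0 = 0 := by
  simp [sm]

theorem sm_cons (k v : ℕ) (P : Multiset ℕ) : sm k (v ::ₘ P) = (v - k) + sm k P := by
  simp [sm]

theorem sm_shift (k j : ℕ) (P : Multiset ℕ) (h : ∀ v ∈ P, k + j ≤ v) :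
    sm k P = sm (k + j) P + j * card P := by
  induction P using Multiset.induction with
  | empty => simp [sm]
  | cons a P ih =>
    have h1 := ih fun v hv => h v (Multiset.mem_cons_of_mem hv)
    have h2 := h a (Multiset.mem_cons_self a P)
    rw [sm_cons, sm_cons, Multiset.card_cons, h1, Nat.mul_succ]
    omega

theorem sm_six (P : Multiset ℕ) (h : ∀ v ∈ P, v ≤ 6) : sm 6 P = 0 := by
  induction P using Multiset.induction with
  | empty => simp [sm]
  | cons a P ih =>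
    have h1 := ih fun v hv => h v (Multiset.mem_cons_of_mem hv)
    have h2 := h a (Multiset.mem_cons_self a P)
    rw [sm_cons, h1]
    omega

/-- greedy choice -/
theorem greedy (w : ℕ → ℕ) (M : ℕ) (P : Multiset ℕ) (hw : ∀ v ∈ P, w v ≤ M) :
    ∀ t : ℕ, ∃ A r : Multiset ℕ, P = A + r ∧ (A.map w).sum ≤ t ∧
      (r = 0 ∨ t < (A.map w).sum + M) := by
  induction P using Multiset.induction with
  | empty =>
    intro t
    exact ⟨0, 0, by simp, by simp, Or.inl rfl⟩
  | cons a P ih =>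
    intro t
    have ha := hw a (Multiset.mem_cons_self a P)
    by_cases h : w a ≤ t
    · obtain ⟨A, r, h1, h2, h3⟩ := ih (fun v hv => hw v (Multiset.mem_cons_of_mem hv)) (t - w a)
      refine ⟨a ::ₘ A, r, ?_, ?_, ?_⟩
      · rw [h1, Multiset.cons_add]
      · rw [Multiset.map_cons, Multiset.sum_cons]
        omega
      · rcases h3 with h3 | h3
        · exact Or.inl h3
        · refine Or.inr ?_
          rw [Multiset.map_cons, Multiset.sum_cons]
          omega
    · refine ⟨0, a ::ₘ P, by simp, by simp, Or.inr ?_⟩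
      simp only [Multiset.map_zero, Multiset.sum_zero]
      omega

/-- choice of `t` members -/
theorem choose_card (P : Multiset ℕ) (t : ℕ) (ht : t ≤ card P) :
    ∃ A r : Multiset ℕ, P = A + r ∧ card A = t := by
  obtain ⟨A, r, h1, h2, h3⟩ := greedy (fun _ => 1) 1 P (fun _ _ => le_rfl) t
  have h4 : ∀ Q : Multiset ℕ, (Q.map fun _ => 1).sum = card Q := by
    intro Q
    simp
  rw [h4] at h2 h3
  refine ⟨A, r, h1, ?_⟩
  rcases h3 with h3 | h3
  · rw [h1, h3] at ht
    simp only [add_zero] at ht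
    omega
  · omega

/-- the weight of case 2a -/
theorem wt_sum (P : Multiset ℕ) (h : ∀ v ∈ P, 13 ≤ v) :
    (P.map fun v => v - 12 - v % 2).sum + card (P.filter fun v => v % 2 = 1) = sm 12 P := by
  induction P using Multiset.induction with
  | empty => simp [sm]
  | cons a P ih =>
    have h1 := ih fun v hv => h v (Multiset.mem_cons_of_mem hv)
    have h2 := h a (Multiset.mem_cons_self a P)
    rw [sm_cons, Multiset.map_cons, Multiset.sum_cons, ← h1]
    by_cases h3 : a % 2 = 1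
    · rw [Multiset.filter_cons_of_pos (p := fun v => v % 2 = 1) P h3, Multiset.card_cons]
      omega
    · rw [Multiset.filter_cons_of_neg (p := fun v => v % 2 = 1) P h3]
      omega

theorem split_B (B : Multiset ℕ) (h : ∀ v ∈ B, 6 ≤ v) :
    ∃ Q : Multiset ℕ, (∀ v ∈ Q, v = 6) ∧ B = sml B + big B + Q := by
  refine ⟨B.filter fun v => v = 6, fun v hv => (Multiset.mem_filter.1 hv).2, ?_⟩
  unfold sml big
  induction B using Multiset.induction with
  | empty => simp
  | cons a B ih =>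
    have h1 := ih fun v hv => h v (Multiset.mem_cons_of_mem hv)
    have h2 := h a (Multiset.mem_cons_self a B)
    rw [Multiset.filter_cons, Multiset.filter_cons, Multiset.filter_cons]
    conv_lhs => rw [h1]
    by_cases h3 : 13 ≤ a
    · rw [if_neg (by omega), if_pos h3, if_neg (by omega)]
      rw [← Multiset.singleton_add]
      abel
    · by_cases h4 : 7 ≤ a
      · rw [if_pos (by omega), if_neg h3, if_neg (by omega)]
        rw [← Multiset.singleton_add]
        abel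
      · rw [if_neg (by omega), if_neg h3, if_pos (by omega)]
        rw [← Multiset.singleton_add]
        abel

theorem odd_eq (B : Multiset ℕ) : odd B = (big B).filter fun v => v % 2 = 1 := by
  unfold odd big
  rw [Multiset.filter_filter]
  refine Multiset.filter_congr fun v _ => ?_
  constructor
  · rintro ⟨h1, h2⟩
    exact ⟨h2, h1⟩
  · rintro ⟨h1, h2⟩
    exact ⟨h2, h1⟩

/-! ### arithmetic -/

theorem ar1a {F G h U n3 n5 mn kd Δ m sA sr : ℕ}
    (hyp : 3 * (F + (G + 6 * h)) + (20 * kd + 20 * Δ) ≤ 3 * U + 6 * n3 + mn)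
    (hm1 : mn ≤ 3 * n3) (hΔ : 12 ≤ Δ) (hm : n3 = m + kd) (h4 : F = sA + sr)
    (h5 : 3 * m ≤ sA + 6) :
    3 * (sr + (G + 6 * h) + 0) + 3 * 0 + 3 * 0 +
      (2 * sA + 12 * 0 + (12 * 0 + 3 * 0) + (12 * 0 + 3 * 0) + (10 * 0 + 3 * 0)) + kd ≤
      3 * U + 3 * n5 + 6 * n3 := by
  omega

theorem ar1b1 {F G h U n3 mn kd Δ m cX cr s12X s12r : ℕ}
    (hyp : 3 * (F + (G + 6 * h)) + (20 * kd + 20 * Δ) ≤ 3 * U + 6 * n3 + mn)
    (hm1 : mn ≤ 3 * n3) (hΔ : 12 ≤ Δ) (hm : n3 = m + kd) (h6 : G = s12X + s12r)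
    (h7 : h = cX + cr) (hx : 3 * m ≤ F + 6 * cX + 5) : s12X + 0 + kd ≤ U := by
  omega

theorem ar1b3 {F G h U n3 n5 mn kd Δ m cX cr s12X s12r : ℕ}
    (hyp : 3 * (F + (G + 6 * h)) + (20 * kd + 20 * Δ) ≤ 3 * U + 6 * n3 + mn)
    (hm1 : mn ≤ 3 * n3) (hΔ : 12 ≤ Δ) (hm : n3 = m + kd) (h6 : G = s12X + s12r)
    (h7 : h = cX + cr) (hx : 3 * m ≤ F + 6 * cX + 5) (hx' : F + 6 * cX ≤ 3 * m) :
    3 * (s12r + 6 * cr + 0) + 3 * s12X + 3 * 0 +
      (2 * F + 12 * cX + (12 * 0 + 3 * 0) + (12 * 0 + 3 * 0) + (10 * 0 + 3 * 0)) + kd ≤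
      3 * U + 3 * n5 + 6 * n3 := by
  omega

theorem ar2a2 {F G h U n3 mn kd Δ u o cX c1 c0 s12X s12Y1 s12Y0 s13 ws e : ℕ}
    (hyp : 3 * (F + (G + 6 * h)) + (20 * kd + 20 * Δ) ≤ 3 * U + 6 * n3 + mn)
    (hm2 : mn ≤ F + e) (he : e ≤ 6 * h) (h7 : G = s12X + (s12Y1 + s12Y0))
    (h8 : h = cX + (c1 + c0)) (h9 : s12Y1 = s13 + 1 * c1) (hs : s12X + c1 = ws + o)
    (hu : U ≤ u + kd) (h3 : u < ws + o + Δ) :
    2 * F + 12 * cX + (12 * c0 + 3 * s12Y0) + (12 * c1 + 3 * s13) + (10 * 0 + 3 * 0) + kd ≤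
      6 * n3 := by
  omega

theorem ar2a3 {F G h U n3 n5 mn kd Δ cX c1 c0 s12X s12Y1 s12Y0 s13 e : ℕ}
    (hyp : 3 * (F + (G + 6 * h)) + (20 * kd + 20 * Δ) ≤ 3 * U + 6 * n3 + mn)
    (hm2 : mn ≤ F + e) (he : e ≤ 6 * h) (h7 : G = s12X + (s12Y1 + s12Y0))
    (h8 : h = cX + (c1 + c0)) (h9 : s12Y1 = s13 + 1 * c1) :
    3 * 0 + 3 * s12X + 3 * c1 +
      (2 * F + 12 * cX + (12 * c0 + 3 * s12Y0) + (12 * c1 + 3 * s13) + (10 * 0 + 3 * 0)) + kd ≤
      3 * U + 3 * n5 + 6 * n3 := by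
  omega

theorem ar2b2 {F G h U n3 mn kd Δ u o c1 c2 c0 s12Y1 s12Y2 s12Y0 s13 s11 e d : ℕ}
    (hyp : 3 * (F + (G + 6 * h)) + (20 * kd + 20 * Δ) ≤ 3 * U + 6 * n3 + mn)
    (hm2 : mn ≤ F + e) (he : e + d = 6 * h) (hd : o ≤ U + d) (h7 : G = s12Y1 + s12Y2 + s12Y0)
    (h8 : h = c1 + c2 + c0) (h8' : o = c1 + c2) (hc : c1 = u)
    (h9 : s12Y1 = s13 + 1 * c1) (h10 : s11 = s12Y2 + 1 * c2) (hu : U ≤ u + kd) :
    2 * F + 12 * 0 + (12 * c0 + 3 * s12Y0) + (12 * c1 + 3 * s13) + (10 * c2 + 3 * s11) + kd ≤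
      6 * n3 := by
  omega

theorem ar2b3 {F G h U n3 n5 mn kd Δ u o c1 c2 c0 s12Y1 s12Y2 s12Y0 s13 s11 e d : ℕ}
    (hyp : 3 * (F + (G + 6 * h)) + (20 * kd + 20 * Δ) ≤ 3 * U + 6 * n3 + mn)
    (hm2 : mn ≤ F + e) (he : e + d = 6 * h) (hd : o ≤ U + d) (h7 : G = s12Y1 + s12Y2 + s12Y0)
    (h8 : h = c1 + c2 + c0) (h8' : o = c1 + c2) (hc : c1 = u)
    (h9 : s12Y1 = s13 + 1 * c1) (h10 : s11 = s12Y2 + 1 * c2) (hu : U ≤ u + kd) :
    3 * 0 + 3 * 0 + 3 * c1 +
      (2 * F + 12 * 0 + (12 * c0 + 3 * s12Y0) + (12 * c1 + 3 * s13) + (10 * c2 + 3 * s11)) +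
      kd ≤ 3 * U + 3 * n5 + 6 * n3 := by
  omega

theorem cho : ChoStmt := by
  intro K
  refine ⟨K, 20 * K + 20, ?_⟩
  intro Δ S B hΔ hS hB hR hyp
  obtain ⟨Q, hQ6, hBQ⟩ := split_B B fun v hv => (hB v hv).1
  have hbigm : ∀ v ∈ big B, 13 ≤ v ∧ v ≤ Δ := by
    intro v hv
    unfold big at hv
    rw [Multiset.mem_filter] at hv
    exact ⟨hv.2, (hB v hv.1).2⟩
  have hsmlm : ∀ v ∈ sml B, 7 ≤ v ∧ v ≤ 12 := by
    intro v hv
    unfold sml at hv
    rw [Multiset.mem_filter] at hv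
    exact hv.2
  have hQ0 : sm 6 Q = 0 := sm_six Q fun v hv => (hQ6 v hv).le
  have hbig6 : sm 6 (big B) = sm 12 (big B) + 6 * card (big B) :=
    sm_shift 6 6 (big B) fun v hv => (Nat.le_succ 12).trans (hbigm v hv).1
  have hT : sm 6 B = sm 6 (sml B) + (sm 12 (big B) + 6 * card (big B)) := by
    conv_lhs => rw [hBQ]
    rw [sm_add, sm_add, hQ0, add_zero, hbig6]
  have hodd := odd_eq B
  rw [hodd] at hyp
  have hcard : card ((big B).filter fun v => v % 2 = 1) ≤ card (big B) :=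
    Multiset.card_le_card (Multiset.filter_le _ _)
  rw [hT] at hyp
  have hC : (20 * K + 20) * Δ = 20 * (K * Δ) + 20 * Δ := by ring
  rw [hC] at hyp
  obtain ⟨kd, hkd⟩ : ∃ x, x = K * Δ := ⟨_, rfl⟩
  obtain ⟨U, hU⟩ : ∃ x, x = UU S := ⟨_, rfl⟩
  obtain ⟨n3, hn3⟩ : ∃ x, x = S.count 3 := ⟨_, rfl⟩
  obtain ⟨n5, hn5⟩ : ∃ x, x = S.count 5 := ⟨_, rfl⟩
  obtain ⟨F, hF⟩ : ∃ x, x = sm 6 (sml B) := ⟨_, rfl⟩
  obtain ⟨G, hG⟩ : ∃ x, x = sm 12 (big B) := ⟨_, rfl⟩
  obtain ⟨h, hh⟩ : ∃ x, x = card (big B) := ⟨_, rfl⟩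
  obtain ⟨o, ho⟩ : ∃ x, x = card ((big B).filter fun v => v % 2 = 1) := ⟨_, rfl⟩
  rw [← hkd, ← hU, ← hn3, ← hF, ← hG, ← hh, ← ho] at hyp
  rw [← hkd, ← hn3] at hR
  rw [← hG, ← hh] at hbig6
  rw [← hh, ← ho] at hcard
  rw [← hkd, ← hU, ← hn3, ← hn5]
  clear hC hT hodd
  obtain ⟨d, hd⟩ : ∃ x, x = o - U := ⟨_, rfl⟩
  obtain ⟨e, he⟩ : ∃ x, x = 6 * h - d := ⟨_, rfl⟩
  rw [← hd, ← he] at hyp
  have hd1 : o ≤ U + d := by omega
  have he1 : e + d = 6 * h := by omega
  have he2 : e ≤ 6 * h := by omega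
  have hm1 : min (3 * n3) (F + e) ≤ 3 * n3 := min_le_left _ _
  have hm2 : min (3 * n3) (F + e) ≤ F + e := min_le_right _ _
  generalize min (3 * n3) (F + e) = mn at hyp hm1 hm2
  have hw0 : ∀ A X Y0 Y1 Y2 : Multiset ℕ, W6 A X Y0 Y1 Y2 = 2 * sm 6 A + 12 * card X +
      (12 * card Y0 + 3 * sm 12 Y0) + (12 * card Y1 + 3 * sm 13 Y1) +
      (10 * card Y2 + 3 * sm 11 Y2) := fun _ _ _ _ _ => rfl
  have hno : ∀ v ∈ (0 : Multiset ℕ), False := fun v hv => Multiset.notMem_zero v hv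
  obtain ⟨m, hm⟩ : ∃ m, n3 = m + kd := ⟨n3 - kd, by clear hyp hm1 hm2; omega⟩
  by_cases c1 : 3 * m ≤ F
  · -- case 1a
    obtain ⟨A, r, h1, h2, h3⟩ := greedy (fun v => v - 6) 6 (sml B)
      (fun v hv => Nat.sub_le_sub_right (hsmlm v hv).2 6) (3 * m)
    change sm 6 A ≤ 3 * m at h2
    change r = 0 ∨ 3 * m < sm 6 A + 6 at h3
    have h4 : F = sm 6 A + sm 6 r := by rw [hF, h1, sm_add]
    have h5 : 3 * m ≤ sm 6 A + 6 := by
      rcases h3 with h3 | h3
      · rw [h3, sm_zero, add_zero] at h4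
        rw [← h4]
        exact c1.trans (Nat.le_add_right _ _)
      · exact h3.le
    refine ⟨A, 0, 0, 0, 0, r + big B + Q, ?_, ?_, ?_, ?_, ?_, ?_, ?_, ?_, ?_⟩
    · conv_lhs => rw [hBQ, h1]
      simp only [add_zero, add_assoc]
    · intro v hv
      exact hsmlm v (by rw [h1]; exact Multiset.mem_add.2 (Or.inl hv))
    · intro v hv; exact (hno v hv).elim
    · intro v hv; exact (hno v hv).elim
    · intro v hv; exact (hno v hv).elim
    · intro v hv; exact (hno v hv).elim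
    · exact Or.inl ⟨rfl, rfl⟩
    · rw [hw0]
      simp only [sm_zero, Multiset.card_zero]
      clear hyp hm1 hm2 h3
      omega
    · rw [hw0, sm_add, sm_add, hQ0, hbig6]
      simp only [sm_zero, Multiset.card_zero]
      exact ar1a hyp hm1 hΔ hm h4 h5
  · by_cases c2 : 3 * m ≤ F + e
    · -- case 1b
      obtain ⟨x, hx⟩ : ∃ x, x = (3 * m - F) / 6 := ⟨_, rfl⟩
      have hx1 : 3 * m ≤ F + 6 * x + 5 := by clear hyp hm1 hm2; omega
      have hx2 : F + 6 * x ≤ 3 * m := by clear hyp hm1 hm2; omega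
      have hx3 : x ≤ h := by clear hyp hm1 hm2; omega
      obtain ⟨X, r, h1, h2⟩ := choose_card (big B) x (by rw [← hh]; exact hx3)
      rw [← h2] at hx1 hx2
      have h3 : ∀ v ∈ X, 13 ≤ v := fun v hv =>
        (hbigm v (by rw [h1]; exact Multiset.mem_add.2 (Or.inl hv))).1
      have h4 : ∀ v ∈ r, 13 ≤ v := fun v hv =>
        (hbigm v (by rw [h1]; exact Multiset.mem_add.2 (Or.inr hv))).1
      have h5 : sm 6 r = sm 12 r + 6 * card r := sm_shift 6 6 r fun v hv =>
        (Nat.le_succ 12).trans (h4 v hv)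
      have h6 : G = sm 12 X + sm 12 r := by rw [hG, h1, sm_add]
      have h7 : h = card X + card r := by rw [hh, h1, Multiset.card_add]
      refine ⟨sml B, X, 0, 0, 0, r + Q, ?_, hsmlm, h3, ?_, ?_, ?_, ?_, ?_, ?_⟩
      · conv_lhs => rw [hBQ, h1]
        simp only [add_zero, add_assoc]
      · intro v hv; exact (hno v hv).elim
      · intro v hv; exact (hno v hv).elim
      · intro v hv; exact (hno v hv).elim
      · refine Or.inr ?_
        simp only [Multiset.card_zero]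
        exact ar1b1 hyp hm1 hΔ hm h6 h7 hx1
      · rw [hw0, ← hF]
        simp only [sm_zero, Multiset.card_zero]
        clear hyp hm1 hm2
        omega
      · rw [hw0, sm_add, hQ0, h5, ← hF]
        simp only [sm_zero, Multiset.card_zero]
        exact ar1b3 hyp hm1 hΔ hm h6 h7 hx1 hx2
    · obtain ⟨u, hu⟩ : ∃ x, x = U - kd := ⟨_, rfl⟩
      have hu1 : U ≤ u + kd := by clear hyp hm1 hm2; omega
      by_cases c3 : o ≤ u
      · -- case 2a
        obtain ⟨X, r, h1, h2, h3⟩ := greedy (fun v => v - 12 - v % 2) Δ (big B)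
          (fun v hv => (Nat.sub_le _ _).trans ((Nat.sub_le _ _).trans (hbigm v hv).2)) (u - o)
        have hX : ∀ v ∈ X, 13 ≤ v := fun v hv =>
          (hbigm v (by rw [h1]; exact Multiset.mem_add.2 (Or.inl hv))).1
        have hr : ∀ v ∈ r, 13 ≤ v := fun v hv =>
          (hbigm v (by rw [h1]; exact Multiset.mem_add.2 (Or.inr hv))).1
        have h4 := wt_sum X hX
        have h5 : o = card (X.filter fun v => v % 2 = 1) +
            card (r.filter fun v => v % 2 = 1) := by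
          rw [ho, h1, Multiset.filter_add, Multiset.card_add]
        have h6 : r.filter (fun v => v % 2 = 1) + r.filter (fun v => ¬ v % 2 = 1) = r :=
          Multiset.filter_add_not _ r
        obtain ⟨Y1, hY1⟩ : ∃ Y, Y = r.filter fun v => v % 2 = 1 := ⟨_, rfl⟩
        obtain ⟨Y0, hY0⟩ : ∃ Y, Y = r.filter fun v => ¬ v % 2 = 1 := ⟨_, rfl⟩
        rw [← hY1, ← hY0] at h6
        rw [← hY1] at h5
        have hY1m : ∀ v ∈ Y1, 13 ≤ v ∧ v % 2 = 1 := fun v hv => by
          rw [hY1] at hv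
          exact ⟨hr v (Multiset.mem_filter.1 hv).1, (Multiset.mem_filter.1 hv).2⟩
        have hY0m : ∀ v ∈ Y0, 13 ≤ v ∧ v % 2 = 0 := fun v hv => by
          rw [hY0] at hv
          refine ⟨hr v (Multiset.mem_filter.1 hv).1, ?_⟩
          exact Nat.mod_two_ne_one.1 (Multiset.mem_filter.1 hv).2
        have h7 : G = sm 12 X + (sm 12 Y1 + sm 12 Y0) := by
          rw [hG, h1, sm_add, ← h6, sm_add]
        have h8 : h = card X + (card Y1 + card Y0) := by
          rw [hh, h1, Multiset.card_add, ← h6, Multiset.card_add]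
        have h9 : sm 12 Y1 = sm 13 Y1 + 1 * card Y1 :=
          sm_shift 12 1 Y1 fun v hv => (hY1m v hv).1
        have h10 : card X ≤ sm 12 X := by
          have h11 : sm 12 X = sm 13 X + 1 * card X := sm_shift 12 1 X hX
          rw [h11, one_mul]
          exact Nat.le_add_left _ _
        obtain ⟨ws, hws⟩ : ∃ x, x = (X.map fun v => v - 12 - v % 2).sum := ⟨_, rfl⟩
        rw [← hws] at h4 h2 h3
        have hsum : sm 12 X + card Y1 = ws + o := by
          rw [h5, ← h4]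
          ring
        have hle : ws + o ≤ u := by
          clear hyp hm1 hm2 h3
          omega
        refine ⟨sml B, X, Y0, Y1, 0, Q, ?_, hsmlm, hX, hY0m, hY1m, ?_, ?_, ?_, ?_⟩
        · conv_lhs => rw [hBQ, h1, ← h6]
          simp only [add_zero]
          abel
        · intro v hv; exact (hno v hv).elim
        · by_cases c4 : kd ≤ U
          · refine Or.inr ?_
            rw [hsum]
            clear hyp hm1 hm2 h3 hsum
            omega
          · have hz : u = 0 := by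
              clear hyp hm1 hm2 h3 hsum
              omega
            have hz2 : sm 12 X + card Y1 = 0 := by
              rw [hsum]
              exact Nat.le_zero.1 (hle.trans hz.le)
            refine Or.inl ⟨?_, ?_⟩
            · rw [← Multiset.card_eq_zero]
              exact Nat.le_zero.1 (h10.trans (Nat.le_add_right _ _ |>.trans hz2.le))
            · rw [← Multiset.card_eq_zero]
              exact Nat.le_zero.1 ((Nat.le_add_left _ _).trans hz2.le)
        · rw [hw0, ← hF]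
          simp only [sm_zero, Multiset.card_zero]
          rcases h3 with h3 | h3
          · have h12 : Y1 = 0 := by
              rw [hY1, h3]
              simp
            have h13 : Y0 = 0 := by
              rw [hY0, h3]
              simp
            have hdz : d = 0 := by
              rw [hd]
              refine Nat.sub_eq_zero_of_le (c3.trans ?_)
              rw [hu]
              exact Nat.sub_le _ _
            rw [h12, h13] at h8 ⊢
            simp only [sm_zero, Multiset.card_zero] at h8 ⊢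
            clear hyp hm1 hm2 hsum h7 h4 h5 h9 hbig6 hle h2
            omega
          · refine ar2a2 hyp hm2 he2 h7 h8 h9 hsum hu1 ?_
            clear hyp hm1 hm2 hsum h7 h4 h5 h9 hbig6
            omega
        · rw [hw0, hQ0, ← hF]
          simp only [sm_zero, Multiset.card_zero]
          exact ar2a3 hyp hm2 he2 h7 h8 h9
      · -- case 2b
        obtain ⟨Y1, Y2, h1, h2⟩ := choose_card ((big B).filter fun v => v % 2 = 1) u
          (by rw [← ho]; exact (Nat.lt_of_not_le c3).le)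
        have h6 : (big B).filter (fun v => v % 2 = 1) + (big B).filter (fun v => ¬ v % 2 = 1) =
            big B := Multiset.filter_add_not _ _
        obtain ⟨Y0, hY0⟩ : ∃ Y, Y = (big B).filter fun v => ¬ v % 2 = 1 := ⟨_, rfl⟩
        rw [← hY0] at h6
        have hodm : ∀ v ∈ (big B).filter (fun v => v % 2 = 1), 13 ≤ v ∧ v % 2 = 1 := fun v hv =>
          ⟨(hbigm v (Multiset.mem_filter.1 hv).1).1, (Multiset.mem_filter.1 hv).2⟩
        have hY1m : ∀ v ∈ Y1, 13 ≤ v ∧ v % 2 = 1 := fun v hv =>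
          hodm v (by rw [h1]; exact Multiset.mem_add.2 (Or.inl hv))
        have hY2m : ∀ v ∈ Y2, 13 ≤ v ∧ v % 2 = 1 := fun v hv =>
          hodm v (by rw [h1]; exact Multiset.mem_add.2 (Or.inr hv))
        have hY0m : ∀ v ∈ Y0, 13 ≤ v ∧ v % 2 = 0 := fun v hv => by
          rw [hY0] at hv
          refine ⟨(hbigm v (Multiset.mem_filter.1 hv).1).1, ?_⟩
          exact Nat.mod_two_ne_one.1 (Multiset.mem_filter.1 hv).2
        have h7 : G = sm 12 Y1 + sm 12 Y2 + sm 12 Y0 := by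
          rw [hG, ← h6, sm_add, h1, sm_add]
        have h8 : h = card Y1 + card Y2 + card Y0 := by
          rw [hh, ← h6, Multiset.card_add, h1, Multiset.card_add]
        have h8' : o = card Y1 + card Y2 := by
          rw [ho, h1, Multiset.card_add]
        have h9 : sm 12 Y1 = sm 13 Y1 + 1 * card Y1 :=
          sm_shift 12 1 Y1 fun v hv => (hY1m v hv).1
        have h10 : sm 11 Y2 = sm 12 Y2 + 1 * card Y2 := sm_shift 11 1 Y2 fun v hv =>
          (Nat.le_succ 12).trans (hY2m v hv).1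
        refine ⟨sml B, 0, Y0, Y1, Y2, Q, ?_, hsmlm, ?_, hY0m, hY1m, hY2m, ?_, ?_, ?_⟩
        · conv_lhs => rw [hBQ, ← h6, h1]
          simp only [add_zero]
          abel
        · intro v hv; exact (hno v hv).elim
        · by_cases c4 : kd ≤ U
          · refine Or.inr ?_
            rw [sm_zero, h2, zero_add, hu]
            exact (Nat.sub_add_cancel c4).le
          · refine Or.inl ⟨rfl, ?_⟩
            rw [← Multiset.card_eq_zero, h2, hu]
            exact Nat.sub_eq_zero_of_le (Nat.lt_of_not_le c4).le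
        · rw [hw0, ← hF]
          simp only [sm_zero, Multiset.card_zero]
          exact ar2b2 hyp hm2 he1 hd1 h7 h8 h8' h2 h9 h10 hu1
        · rw [hw0, hQ0, ← hF]
          simp only [sm_zero, Multiset.card_zero]
          exact ar2b3 hyp hm2 he1 hd1 h7 h8 h8' h2 h9 h10 hu1

end Pool.Agent.PDZ.H46
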