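import Pool.Agent.Helper20_PDZ.Plan

/-!
# PDZ: the calculus of drawings in a triangle

`Fil a b c D`: inside a triangle with the corners `A, B, C` one can draw (straight lines, no
crossings) a graph without edges between the corners, in which the corners have the degrees
`a, b, c` and the multiset of the degrees of the other vertices is `D`.

Rules: `fil_nil`, `fil_stack` (a new vertex `X`, joined to the corners with `e = 1`, and drawings in
the triangles `XBC`, `AXC`, `ABX`), permutations of the corners, `fil_drop` (an isolated vertex may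
be removed). `pz_of_fil`: `Fil 0 0 0 D` gives a planar graph with the degrees `D` (`Pz D`);
`pz_add`, `pz_of_rz`.
-/

set_option autoImplicit false

namespace Pool.Agent.PDZ

/-- degrees `a, b, c` of the corners and `D` of the other vertices of a drawing in a triangle -/
def Fil (a b c : ℕ) (D : Multiset ℕ) : Prop := Fill ![a, b, c] D

theorem fil_nil : Fil 0 0 0 0 := by
  have h : (![0, 0, 0] : Fin 3 → ℕ) = 0 := by
    funext i
    fin_cases i <;> rfl
  unfold Fil
  rw [h]
  exact Fill.nil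

theorem fil_drop {a b c : ℕ} {D : Multiset ℕ} (h : Fil a b c (0 ::ₘ D)) : Fil a b c D :=
  Fill.drop _ _ h

theorem fil_swap12 {a b c : ℕ} {D : Multiset ℕ} (h : Fil a b c D) : Fil b a c D := by
  have h1 := Fill.perm _ _ (Equiv.swap (0 : Fin 3) 1) h
  have h2 : (fun i => (![a, b, c] : Fin 3 → ℕ) (Equiv.swap (0 : Fin 3) 1 i)) = ![b, a, c] := by
    funext i
    fin_cases i <;> rfl
  unfold Fil
  rw [← h2]
  exact h1

theorem fil_swap23 {a b c : ℕ} {D : Multiset ℕ} (h : Fil a b c D) : Fil a c b D := by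
  have h1 := Fill.perm _ _ (Equiv.swap (1 : Fin 3) 2) h
  have h2 : (fun i => (![a, b, c] : Fin 3 → ℕ) (Equiv.swap (1 : Fin 3) 2 i)) = ![a, c, b] := by
    funext i
    fin_cases i <;> rfl
  unfold Fil
  rw [← h2]
  exact h1

theorem fil_swap13 {a b c : ℕ} {D : Multiset ℕ} (h : Fil a b c D) : Fil c b a D :=
  fil_swap12 (fil_swap23 (fil_swap12 h))

theorem fil_rot {a b c : ℕ} {D : Multiset ℕ} (h : Fil a b c D) : Fil b c a D :=
  fil_swap23 (fil_swap12 h)

/-- a new vertex `X` with the degree `x₀ + x₁ + x₂ + (e₀ + e₁ + e₂)` -/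
theorem fil_stack (e₀ e₁ e₂ : ℕ) (h₀ : e₀ ≤ 1) (h₁ : e₁ ≤ 1) (h₂ : e₂ ≤ 1)
    {x₀ b₀ c₀ a₁ x₁ c₁ a₂ b₂ x₂ : ℕ} {D₀ D₁ D₂ : Multiset ℕ}
    (f₀ : Fil x₀ b₀ c₀ D₀) (f₁ : Fil a₁ x₁ c₁ D₁) (f₂ : Fil a₂ b₂ x₂ D₂) :
    Fil (a₁ + a₂ + e₀) (b₀ + b₂ + e₁) (c₀ + c₁ + e₂)
      ((x₀ + x₁ + x₂ + (e₀ + e₁ + e₂)) ::ₘ (D₀ + D₁ + D₂)) := by
  have h := Fill.stack ![e₀, e₁, e₂] ![![x₀, b₀, c₀], ![a₁, x₁, c₁], ![a₂, b₂, x₂]]
    ![D₀, D₁, D₂]
    (by
      intro i
      fin_cases i
      · exact h₀
      · exact h₁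
      · exact h₂)
    (by
      intro i
      fin_cases i
      · exact f₀
      · exact f₁
      · exact f₂)
  have h2 : (![a₁ + a₂ + e₀, b₀ + b₂ + e₁, c₀ + c₁ + e₂] : Fin 3 → ℕ) =
      (fun j : Fin 3 => (![![x₀, b₀, c₀], ![a₁, x₁, c₁], ![a₂, b₂, x₂]] : Fin 3 → Fin 3 → ℕ)
        (j + 1) j + (![![x₀, b₀, c₀], ![a₁, x₁, c₁], ![a₂, b₂, x₂]] : Fin 3 → Fin 3 → ℕ)
        (j + 2) j + (![e₀, e₁, e₂] : Fin 3 → ℕ) j) := by
    funext i
    fin_cases i
    · rfl
    · show b₀ + b₂ + e₁ = b₂ + b₀ + e₁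
      omega
    · rfl
  unfold Fil
  rw [h2]
  exact h

theorem pz_of_fil {D : Multiset ℕ} (h : Fil 0 0 0 D) : Pz D := by
  apply pz_of_fill
  have h2 : (![0, 0, 0] : Fin 3 → ℕ) = 0 := by
    funext i
    fin_cases i <;> rfl
  unfold Fil at h
  rwa [h2] at h

/-- A drawing that does not use the corner `i` can be added to any drawing in the triangle. -/
theorem Fill.add {c : Fin 3 → ℕ} {D : Multiset ℕ} (h : Fill c D) :
    ∀ (i : Fin 3) (c' : Fin 3 → ℕ) (D' : Multiset ℕ), c' i = 0 → Fill c' D' →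
      Fill (fun j => c j + c' j) (D + D') := by
  induction h with
  | nil =>
    intro i c' D' _ h'
    have h1 : (fun j => (0 : Fin 3 → ℕ) j + c' j) = c' := by
      funext j
      simp
    rw [h1, zero_add]
    exact h'
  | perm c D σ _ ih =>
    intro i c' D' hi h'
    have h1 := ih (σ i) (fun j => c' (σ.symm j)) D' (by simpa using hi) (Fill.perm _ _ σ.symm h')
    have h2 := Fill.perm _ _ σ h1
    have h3 : (fun i => c (σ i) + c' (σ.symm (σ i))) = fun j => c (σ j) + c' j := by
      funext j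
      simp
    rw [h3] at h2
    exact h2
  | drop c D _ ih =>
    intro i c' D' hi h'
    have h1 := ih i c' D' hi h'
    rw [Multiset.cons_add] at h1
    exact Fill.drop _ _ h1
  | stack e c D he h ih =>
    intro i c' D' hi h'
    have h1 := Fill.stack e (fun k j => c k j + if k = i then c' j else 0)
      (fun k => D k + if k = i then D' else 0) he (by
        intro k
        by_cases hk : k = i
        · subst hk
          have h2 := ih k k c' D' hi h'
          simpa using h2
        · simpa [hk] using h k)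
    have h3 : (fun j : Fin 3 => (c (j + 1) j + if j + 1 = i then c' j else 0) +
        (c (j + 2) j + if j + 2 = i then c' j else 0) + e j) =
        fun j => c (j + 1) j + c (j + 2) j + e j + c' j := by
      funext j
      have h4 : ∀ i j : Fin 3, (j = i ∧ j + 1 ≠ i ∧ j + 2 ≠ i) ∨ (j + 1 = i ∧ j + 2 ≠ i) ∨
          (j + 1 ≠ i ∧ j + 2 = i) := by decide
      rcases h4 i j with ⟨rfl, h5, h6⟩ | ⟨h5, h6⟩ | ⟨h5, h6⟩
      · rw [if_neg h5, if_neg h6, hi]
        omega
      · rw [if_pos h5, if_neg h6]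
        omega
      · rw [if_neg h5, if_pos h6]
        omega
    have h6 : (c 0 0 + (if (0 : Fin 3) = i then c' 0 else 0) +
        (c 1 1 + if (1 : Fin 3) = i then c' 1 else 0) +
        (c 2 2 + if (2 : Fin 3) = i then c' 2 else 0) + (e 0 + e 1 + e 2)) =
        c 0 0 + c 1 1 + c 2 2 + (e 0 + e 1 + e 2) := by
      have h7 : ∀ k : Fin 3, (if k = i then c' k else 0) = 0 := by
        intro k
        by_cases hk : k = i
        · rw [if_pos hk, hk, hi]
        · rw [if_neg hk]
      simp only [h7, add_zero]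
    have h8 : (D 0 + (if (0 : Fin 3) = i then D' else 0) +
        (D 1 + if (1 : Fin 3) = i then D' else 0) +
        (D 2 + if (2 : Fin 3) = i then D' else 0)) = D 0 + D 1 + D 2 + D' := by
      have h9 : ∀ i : Fin 3, i = 0 ∨ i = 1 ∨ i = 2 := by decide
      have n1 : ¬ (0 : Fin 3) = 1 := by decide
      have n2 : ¬ (0 : Fin 3) = 2 := by decide
      have n3 : ¬ (1 : Fin 3) = 2 := by decide
      rcases h9 i with rfl | rfl | rfl
      · rw [if_pos rfl, if_neg (Ne.symm n1), if_neg (Ne.symm n2)]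
        abel
      · rw [if_neg n1, if_pos rfl, if_neg (Ne.symm n3)]
        abel
      · rw [if_neg n2, if_neg n3, if_pos rfl]
        abel
    rw [h3, h6, h8] at h1
    rw [Multiset.cons_add]
    exact h1

/-- A drawing that uses only the corners `A`, `B` can be added to any drawing. -/
theorem fil_add {a b c a' b' : ℕ} {D D' : Multiset ℕ} (h : Fil a b c D) (h' : Fil a' b' 0 D') :
    Fil (a + a') (b + b') c (D + D') := by
  have h1 := Fill.add h 2 ![a', b', 0] D' rfl h'
  have h2 : (fun j => (![a, b, c] : Fin 3 → ℕ) j + (![a', b', 0] : Fin 3 → ℕ) j) =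
      ![a + a', b + b', c] := by
    funext i
    fin_cases i <;> rfl
  rw [h2] at h1
  exact h1

/-- A drawing that uses only the corner `A` can be added to any drawing. -/
theorem fil_add1 {a b c a' : ℕ} {D D' : Multiset ℕ} (h : Fil a b c D) (h' : Fil a' 0 0 D') :
    Fil (a + a') b c (D + D') := fil_add h h'

end Pool.Agent.PDZ
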