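import Pool.Agent.PDZ.Defs
import Pool.Agent.Helper70_PDS.Final

/-!
# PDZ: statements of the modules (theorem (S*) of the notes on MP_afe9e9_co)

Degree sequences of planar graphs with entries 3: the capacity of an entry 3 is 3 if it is put into
a face between large vertices and 2 otherwise.

`S`: the entries `1, .., 5`; `B`: the entries `≥ 6`. `UU S = n_1 + 2 n_2 + 2 n_4`.
-/

set_option autoImplicit false

namespace Pool.Agent.PDZ

open Multiset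

/-- the sum of the `v - k` -/
def sm (k : ℕ) (P : Multiset ℕ) : ℕ := (P.map fun v => v - k).sum

/-- `n_1 + 2 n_2 + 2 n_4` -/
def UU (D : Multiset ℕ) : ℕ := D.count 1 + 2 * D.count 2 + 2 * D.count 4

/-- the entries `7, .., 12` -/
def sml (D : Multiset ℕ) : Multiset ℕ := D.filter fun v => 7 ≤ v ∧ v ≤ 12

/-- the entries `≥ 13` -/
def big (D : Multiset ℕ) : Multiset ℕ := D.filter fun v => 13 ≤ v

/-- the odd entries `≥ 13` -/
def odd (D : Multiset ℕ) : Multiset ℕ := D.filter fun v => 13 ≤ v ∧ v % 2 = 1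

/-! ## Tubes -/

/-- TT: the path cube, `t` of the six classes of faces filled, extra units by pairs of 3s on the path
edges. The number of the 3s is `t / 3` for every vertex, `(v - 6 - t) / 2` for the extra units, and
`O(Δ)` for the two ends. -/
def TtStmt : Prop := ∃ K : ℕ, ∀ t ≤ 6, ∀ (Δ : ℕ) (P : Multiset ℕ), 3 ≤ card P →
  (∀ v ∈ P, 6 + t ≤ v ∧ v ≤ Δ ∧ v % 2 = t % 2) →
  ∃ N : ℕ, Pz (P + replicate N 3) ∧ 6 * N ≤ 2 * t * card P + 3 * sm (6 + t) P + K * Δ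

/-- TB: the path cube, all faces filled, extra units by vertices of degree `i` (leaves for `i = 1`;
on the path edges for `i = 2, 4`; the chains of 4s end with the 3 of the face). -/
def TbStmt : Prop := ∃ K : ℕ, ∀ i : ℕ, (i = 1 ∨ i = 2 ∨ i = 4) → ∀ (Δ : ℕ) (P : Multiset ℕ),
  3 ≤ card P → (∀ v ∈ P, 12 ≤ v ∧ v ≤ Δ) →
  ∃ N M : ℕ, Pz (P + replicate N 3 + replicate M i) ∧ 6 * N ≤ 12 * card P + K * Δ ∧
    PDS.cap i * M ≤ sm 12 P + K * Δ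

/-- TE: the path cube, all faces filled, odd degrees: one extra unit by vertices of degree `i` (on every
second path edge; leaves for `i = 1`), the others by pairs of 3s. -/
def TeStmt : Prop := ∃ K : ℕ, ∀ i : ℕ, (i = 1 ∨ i = 2 ∨ i = 4) → ∀ (Δ : ℕ) (P : Multiset ℕ),
  3 ≤ card P → (∀ v ∈ P, 13 ≤ v ∧ v ≤ Δ ∧ v % 2 = 1) →
  ∃ N M : ℕ, Pz (P + replicate N 3 + replicate M i) ∧
    6 * N ≤ 12 * card P + 3 * sm 13 P + K * Δ ∧ PDS.cap i * M ≤ card P + K * Δ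

/-- EVN: handshake. -/
def EvnStmt : Prop := ∀ D : Multiset ℕ, Pz D → D.sum % 2 = 0

/-! ## Assembly -/

/-- six times the number of the 3s used in the tubes: `A` (entries 7, .., 12) in `TT`, `X` in `TB`,
`Y0` (even) in `TT` with `t = 6`, `Y1` (odd) in `TE`, `Y2` (odd) in `TT` with `t = 5` -/
def W6 (A X Y0 Y1 Y2 : Multiset ℕ) : ℕ :=
  2 * sm 6 A + 12 * card X + (12 * card Y0 + 3 * sm 12 Y0) + (12 * card Y1 + 3 * sm 13 Y1) +
    (10 * card Y2 + 3 * sm 11 Y2)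

/-- ASM (uses TT, TB, TE, EVN, PDS.main_all, PDS.BinStmt = H48.bin): the tubes and the rest.
Proof. `A` is split into the six multisets of equal entries; every tube with less than three members
goes to the rest (`O(Δ)`). `X` and `Y1` are distributed over the types `1, 2, 4` by BIN (blocks: the
members of `X` with weight `v - 12`, those of `Y1` with weight `1`; capacities `n_1`, `2 n_2`,
`2 n_4`, with overhead `o = K' Δ`). The rest (`Z`, the small tubes, the unused 1, .., 5) satisfies the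
condition of `PDS.MainStmt` (`pz_of_rz`); its sum is even by EVN; `pz_add`. -/
def AsmStmt : Prop := ∃ K : ℕ, ∀ (Δ : ℕ) (S A X Y0 Y1 Y2 Z : Multiset ℕ), 12 ≤ Δ →
  (∀ v ∈ S, 1 ≤ v ∧ v ≤ 5) → (∀ v ∈ A, 7 ≤ v ∧ v ≤ 12) → (∀ v ∈ X, 12 ≤ v ∧ v ≤ Δ) →
  (∀ v ∈ Y0, 12 ≤ v ∧ v ≤ Δ ∧ v % 2 = 0) → (∀ v ∈ Y1, 13 ≤ v ∧ v ≤ Δ ∧ v % 2 = 1) →
  (∀ v ∈ Y2, 11 ≤ v ∧ v ≤ Δ ∧ v % 2 = 1) → (∀ v ∈ Z, 6 ≤ v ∧ v ≤ Δ) →
  (S + (A + X + Y0 + Y1 + Y2 + Z)).sum % 2 = 0 →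
  ((X = 0 ∧ Y1 = 0) ∨ sm 12 X + card Y1 + K * Δ ≤ UU S) →
  W6 A X Y0 Y1 Y2 + K * Δ ≤ 6 * S.count 3 →
  3 * sm 6 Z + 3 * sm 12 X + 3 * card Y1 + W6 A X Y0 Y1 Y2 + K * Δ ≤
    3 * UU S + 3 * S.count 5 + 6 * S.count 3 →
  Pz (S + (A + X + Y0 + Y1 + Y2 + Z))

/-- CHO (pure combinatorics): the choice of the parts. `n_3 = S.count 3`, `F = sm 6 (sml B)`,
`h = card (big B)`, `o = card (odd B)`, `U = UU S`.
Proof. Put `m = n_3 - R' Δ` (`R'` large against `K`).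
Case 1a, `3 m ≤ F`: `A ≤ sml B` with `sm 6 A ≤ 3 m ≤ sm 6 A + 6` (greedy), everything else in `Z`.
Case 1b, `F < 3 m ≤ F + (6 h - (o - U))`: `A = sml B`, `X ≤ big B` with `card X = (3 m - F) / 6`, the rest
in `Z`. Here `sm 12 X + 6 card X = sm 6 X`, and the hypothesis with `min ≤ 3 n_3` gives
`sm 6 B ≤ U + 3 n_3 - C Δ / 3`, so `sm 12 X + sm 6 Z ≤ U + O(Δ) - C Δ / 3`.
Case 2, `3 m > F + (6 h - (o - U))`: `A = sml B`, `u = U - R' Δ` (truncated).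
2a, `o ≤ u`: `X ≤ big B` maximal (or greedy) with `sm 12 X + card (odd (big B - X)) ≤ u`; `Y1` the odd and
`Y0` the even members of `big B - X`, `Y2 = 0`. If `X ≠ big B` then
`sm 12 X + card Y1 ≥ u - Δ`, and the number of the 3s is
`F / 3 + 2 h + (sm 12 (big B) - (sm 12 X + card Y1)) / 2`.
2b, `u < o`: `X = 0`, `Y1 ≤ odd B` with `u` members, `Y2` the other odd ones, `Y0` the even ones. The number
of the 3s is `(F + 6 h - (o - u)) / 3 + (sm 12 (big B) - u + (o - u)) / 2`.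
The members `6` of `B` are in `Z`. -/
def ChoStmt : Prop := ∀ K : ℕ, ∃ R C : ℕ, ∀ (Δ : ℕ) (S B : Multiset ℕ), 12 ≤ Δ →
  (∀ v ∈ S, 1 ≤ v ∧ v ≤ 5) → (∀ v ∈ B, 6 ≤ v ∧ v ≤ Δ) → R * Δ ≤ S.count 3 →
  3 * sm 6 B + C * Δ ≤ 3 * UU S + 6 * S.count 3 +
    min (3 * S.count 3) (sm 6 (sml B) + (6 * card (big B) - (card (odd B) - UU S))) →
  ∃ A X Y0 Y1 Y2 Z : Multiset ℕ, B = A + X + Y0 + Y1 + Y2 + Z ∧
    (∀ v ∈ A, 7 ≤ v ∧ v ≤ 12) ∧ (∀ v ∈ X, 13 ≤ v) ∧ (∀ v ∈ Y0, 13 ≤ v ∧ v % 2 = 0) ∧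
    (∀ v ∈ Y1, 13 ≤ v ∧ v % 2 = 1) ∧ (∀ v ∈ Y2, 13 ≤ v ∧ v % 2 = 1) ∧
    ((X = 0 ∧ Y1 = 0) ∨ sm 12 X + card Y1 + K * Δ ≤ UU S) ∧
    W6 A X Y0 Y1 Y2 + K * Δ ≤ 6 * S.count 3 ∧
    3 * sm 6 Z + 3 * sm 12 X + 3 * card Y1 + W6 A X Y0 Y1 Y2 + K * Δ ≤
      3 * UU S + 3 * S.count 5 + 6 * S.count 3

/-- PST (uses ASM, CHO, PDS.main_all): the entries 5 not counted. `S = D.filter (· ≤ 5)`,
`B = D.filter (6 ≤ ·)`; if `n_3 < R Δ` then `PDS.main_all`. (Use ASM and CHO with `Δ + 12`.) -/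
def PstStmt : Prop := ∃ C : ℕ, ∀ (Δ : ℕ) (D : Multiset ℕ), (∀ v ∈ D, 1 ≤ v ∧ v ≤ Δ) →
  D.sum % 2 = 0 →
  3 * sm 6 D + C * Δ ≤ 3 * UU D + 6 * D.count 3 +
    min (3 * D.count 3) (sm 6 (sml D) + (6 * card (big D) - (card (odd D) - UU D))) → Pz D

/-- SST (uses PST, PDS.main_all): with the entries 5. Proof. `D'' = E +` (almost) all the 5s, realised by
`PDS.main_all` (`sm 6 E + 20000 Δ ≤ ` number of the 5s of `D''`; if the sum is odd leave one 5 in `D'`,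
PST does not count the 5s), `D' = D - D''` by PST.
Case I, `sm 6 (big D) + K Δ ≤ n_5`: `E` contains `big D` and some members of `sml D`,
`n_5 - K Δ - Δ ≤ sm 6 E ≤ n_5 - K Δ` or `E = big D + sml D`. In `D'` there are no entries `≥ 13`; with
`F1 = sm 6 D'` the hypothesis (`min ≤ 3 n_3`) gives `3 F1 + C' Δ ≤ 3 U + 9 n_3`, and this implies
`3 F1 + C1 Δ ≤ 3 U + 6 n_3 + min (3 n_3) F1` (if `F1 < 3 n_3` distinguish `F1 ≤ 3 n_3 - C1 Δ / 2`).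
Case II: `E ≤ big D` with `n_5 - K Δ - Δ ≤ sm 6 E ≤ n_5 - K Δ` (`E = 0` if `n_5 ≤ K Δ + Δ`); the
condition of PST holds for `D'` since `7 card E ≤ sm 6 E ≤ n_5`, so `6 card (big D') ≥ 6 h - n_5`. -/
def SstStmt : Prop := ∃ C : ℕ, ∀ (Δ : ℕ) (D : Multiset ℕ), (∀ v ∈ D, 1 ≤ v ∧ v ≤ Δ) →
  D.sum % 2 = 0 →
  3 * sm 6 D + C * Δ ≤ 3 * (UU D + D.count 5) + 6 * D.count 3 +
    min (3 * D.count 3)
      (sm 6 (sml D) + (6 * card (big D) - (card (odd D) - UU D) - D.count 5)) → Pz D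

/-! ## The final theorem, for sequences -/

/-- the number of the entries with a property -/
noncomputable def nu {n : ℕ} (v : Fin n → ℕ) (p : ℕ → Prop) : ℕ := Nat.card {i // p (v i)}

/-- FIN (uses SST): sequences. Entries 0 are isolated vertices. (a) the general condition; (b) no
entries `5, .., 11`: the three necessary conditions with a linear error; (c) all entries at most
`12`: Hakimi's condition with a constant. In (b) the sums are over the entries `≥ 12`. -/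
def FinStmt : Prop := ∃ C : ℕ, ∀ (n : ℕ) (v : Fin n → ℕ) (Δ : ℕ), (∀ i, v i ≤ Δ) →
  (∑ i, v i) % 2 = 0 →
  ((3 * ∑ i, (v i - 6) + C * Δ ≤
      3 * (nu v (· = 1) + 2 * nu v (· = 2) + 2 * nu v (· = 4) + nu v (· = 5)) +
      6 * nu v (· = 3) +
      min (3 * nu v (· = 3)) (∑ i, (if v i ≤ 12 then v i - 6 else 0) +
        (6 * nu v (13 ≤ ·) - (nu v (fun x => 13 ≤ x ∧ x % 2 = 1) -
          (nu v (· = 1) + 2 * nu v (· = 2) + 2 * nu v (· = 4))) - nu v (· = 5)))) ∨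
    ((∀ i, v i ≤ 4 ∨ 12 ≤ v i) ∧
      ∑ i, (v i - 6) + C * Δ ≤ nu v (· = 1) + 2 * nu v (· = 2) + 3 * nu v (· = 3) +
        2 * nu v (· = 4) ∧
      ∑ i, (v i - 8) + C * Δ ≤ nu v (· = 1) + 2 * nu v (· = 2) + 2 * nu v (· = 3) +
        2 * nu v (· = 4) ∧
      3 * ∑ i, (v i - 8) + nu v (fun x => 12 ≤ x ∧ x % 2 = 1) + C * Δ ≤ 4 * nu v (· = 1) +
        8 * nu v (· = 2) + 6 * nu v (· = 3) + 8 * nu v (· = 4)) ∨
    ((∀ i, v i ≤ 12) ∧
      ∑ i, (v i - 6) + C ≤ nu v (· = 1) + 2 * nu v (· = 2) + 3 * nu v (· = 3) +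
        2 * nu v (· = 4) + nu v (· = 5))) →
  ∃ G : SimpleGraph (Fin n), PDS.Planar G ∧ ∀ i, (G.neighborSet i).ncard = v i

end Pool.Agent.PDZ
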